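import Pool.Agent.Helper66.GP.Kit

/-!
# CD : conditions are coded by reals
-/

universe u

namespace Pool.Agent.Helper50.GP

open ZFSet Pool.Agent.Helper66.SC Pool.Agent.Helper22.SC Pool.Agent.Helper66.GP

theorem leF_iff {x y : ZFSet.{u}} : LeF x y ↔ ∀ n ∈ dom x, ∀ m ∈ ran x, ∀ m' ∈ ran y,
    pair n m ∈ x → pair n m' ∈ y → m ⊆ m' := by
  constructor
  · intro h n _ m _ m' _ h1 h2
    exact h n m m' h1 h2
  · intro h n m m' h1 h2
    exact h n (mem_dom.2 ⟨m, h1⟩) m (mem_ran.2 ⟨n, h1⟩) m' (mem_ran.2 ⟨n, h2⟩) h1 h2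

theorem urel_leF : URel KZ.{u} (fun _ _ (p : ZFSet.{u} × ZFSet.{u}) => LeF p.1 p.2) := by
  simp only [leF_iff]
  apply_rules (transparency := .reducible) (maxDepth := 400) using is_poly

/-- the section of `R` at `n` -/
noncomputable def sx (R n : ZFSet.{u}) : ZFSet.{u} := (ran R).sep (fun s => pair n s ∈ R)

theorem mem_sx {R n s : ZFSet.{u}} : s ∈ sx R n ↔ pair n s ∈ R := by
  unfold sx
  rw [mem_sep, mem_ran]
  exact ⟨fun h => h.2, fun h => ⟨⟨n, h⟩, h⟩⟩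

theorem u_sx : U KZ.{u} (fun _ _ (p : ZFSet.{u} × ZFSet.{u}) => sx p.1 p.2) := by
  unfold sx
  apply_rules (transparency := .reducible) (maxDepth := 400) using is_poly

/-- the set of all sections of `R` -/
noncomputable def secs (R : ZFSet.{u}) : ZFSet.{u} := img (dom R) (fun n => sx R n)

theorem mem_secs {R x : ZFSet.{u}} : x ∈ secs R ↔ ∃ n ∈ dom R, x = sx R n := by
  unfold secs
  rw [mem_img]
  constructor
  · rintro ⟨n, hn, h⟩
    exact ⟨n, hn, h.symm⟩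
  · rintro ⟨n, hn, h⟩
    exact ⟨n, hn, h.symm⟩

theorem u_secs : U KZ.{u} (fun _ _ (p : ZFSet.{u}) => secs p) := by
  unfold secs
  refine U.img (g := fun _ _ R n => sx R n) (U.dom U.id) ?_
  exact u_sx.comp (U.prodMk U.id.fst U.id.snd)

/-- the decoding function -/
noncomputable def dec (e : ZFSet.{u}) : ZFSet.{u} :=
  img (secs (sx e ∅)) (fun x => pair x ((secs (sx e {∅})).sep (fun c => LeF c x)))

theorem u_dec : U KZ.{u} (fun _ _ (e : ZFSet.{u}) => dec e) := by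
  unfold dec
  have h1 : U KZ.{u} (fun _ _ (e : ZFSet.{u}) => secs (sx e ∅)) :=
    u_secs.comp (u_sx.comp (U.prodMk U.id U.empty))
  have h2 : U KZ.{u} (fun _ _ (e : ZFSet.{u}) => secs (sx e {∅})) :=
    u_secs.comp (u_sx.comp (U.prodMk U.id (U.singleton U.empty)))
  refine U.img (g := fun _ _ e x => pair x ((secs (sx e {∅})).sep (fun c => LeF c x))) h1 ?_
  refine U.pair U.id.snd ?_
  refine U.sep (h2.comp U.id.fst) ?_
  exact urel_leF.comp (U.prodMk U.id.snd U.id.fst.snd)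

/-- a countable set of nonempty subsets of `V_ω` is coded by a subset of `V_ω`. -/
theorem exists_code (hVO : ST_VO.{u}) {W : Set ZFSet.{u}} (hW : IsZF W ∅) {D : ZFSet.{u}}
    (hD : D ∈ W) (hc : CardLe W D ZFSet.omega) (hne : ∀ x ∈ D, ∃ s, s ∈ x)
    (hsub : ∀ x ∈ D, x ⊆ VO) : ∃ R ∈ W, R ⊆ VO ∧ secs R = D := by
  have hVOW : VO ∈ W := (hVO.2.2.2.2.2.2.2.1 W ∅ hW).1
  have hω : ZFSet.omega.{u} ⊆ VO := hVO.2.2.2.2.2.1
  obtain ⟨f, hf, -, hf2, hf3⟩ := cardLe_iff.1 hc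
  let R : ZFSet.{u} := ZFSet.sep (fun z => ∃ x ∈ D, app f x = pfst z ∧ psnd z ∈ x)
    (ZFSet.omega.prod VO)
  have hRW : R ∈ W := by
    have := (show U KZ.{u} (fun _ _ (p : (ZFSet.{u} × ZFSet.{u}) × ZFSet.{u}) =>
      ZFSet.sep (fun z => ∃ x ∈ p.1.1, app p.1.2 x = pfst z ∧ psnd z ∈ x)
        (ZFSet.omega.prod p.2)) by
        apply_rules (transparency := .reducible) (maxDepth := 400) using is_poly).closed hW
      (a := ((D, f), VO)) (by simp [hD, hf, hVOW])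
    simpa using this
  have hmem : ∀ n s, pair n s ∈ R ↔ ∃ x ∈ D, app f x = n ∧ s ∈ x := by
    intro n s
    simp only [R, mem_sep, pfst_pair, psnd_pair, pair_mem_prod]
    constructor
    · exact fun h => h.2
    · rintro ⟨x, hx, rfl, hs⟩
      exact ⟨⟨hf2 x hx, hsub x hx hs⟩, x, hx, rfl, hs⟩
  have hsx : ∀ x ∈ D, sx R (app f x) = x := by
    intro x hx
    ext s
    rw [mem_sx, hmem]
    constructor
    · rintro ⟨x', hx', h1, h2⟩
      rwa [← hf3 x' hx' x hx h1]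
    · intro hs
      exact ⟨x, hx, rfl, hs⟩
  refine ⟨R, hRW, ?_, ?_⟩
  · intro z hz
    obtain ⟨n, hn, s, hs, rfl⟩ := mem_prod.1 (mem_sep.1 hz).1
    exact hVO.2.2.1 n s (hω hn) hs
  · ext x
    rw [mem_secs]
    constructor
    · rintro ⟨n, hn, rfl⟩
      obtain ⟨s, hs⟩ := mem_dom.1 hn
      obtain ⟨x, hx, rfl, -⟩ := (hmem n s).1 hs
      rwa [hsx x hx]
    · intro hx
      obtain ⟨s, hs⟩ := hne x hx
      exact ⟨app f x, mem_dom.2 ⟨s, (hmem _ _).2 ⟨x, hx, rfl, hs⟩⟩, (hsx x hx).symm⟩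

theorem ff_ne {x : ZFSet.{u}} (h : FF x) : ∃ s, s ∈ x := by
  have h0 : (∅ : ZFSet.{u}) ∈ ZFSet.omega := ZFSet.omega_zero
  obtain ⟨w, hw, -⟩ := h.2 ∅ h0
  exact ⟨_, hw⟩

/-- CD, for models of the axiom of choice. -/
theorem cd_aux (hVO : ST_VO.{u}) {W : Set ZFSet.{u}} (hW : IsZF W ∅) (hWO : WO W) {p : ZFSet.{u}}
    (hp : IsP W p) : ∃ c ∈ Rl W, dec c = p := by
  obtain ⟨hpW, hpc, hp1, hp2⟩ := hp
  have hoz : oz Ordinal.omega0.{u} = ZFSet.omega := omega_eq.symm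
  have hω : oz Ordinal.omega0 ∈ W := by rw [hoz]; exact hW.omega
  have hVOW : VO ∈ W := (hVO.2.2.2.2.2.2.2.1 W ∅ hW).1
  have hωVO : ZFSet.omega.{u} ⊆ VO := hVO.2.2.2.2.2.1
  have hVOp : ∀ x y : ZFSet.{u}, x ∈ VO → y ∈ VO → pair x y ∈ VO := hVO.2.2.1
  have hFV : ∀ x : ZFSet.{u}, FF x → x ⊆ VO := hVO.2.2.2.2.2.2.1
  have hωω : CardLe W (ZFSet.omega.prod ZFSet.omega) ZFSet.omega :=
    (hVO.2.2.2.2.2.2.2.2 W ∅ hW hWO).2
  -- the domain
  have hDW : dom p ∈ W := by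
    have := (show U KZ.{u} (fun _ _ (p : ZFSet.{u}) => dom p) by
        apply_rules (transparency := .reducible) (maxDepth := 400) using is_poly).closed hW
      (a := p) (by simp [hpW])
    simpa using this
  have hgW : gr p pfst ∈ W := by
    have := (show U KZ.{u} (fun _ _ (p : ZFSet.{u}) => gr p (fun x => pfst x)) by
        apply_rules (transparency := .reducible) (maxDepth := 400) using is_poly).closed hW
      (a := p) (by simp [hpW])
    simpa using this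
  have hg2W : gr p psnd ∈ W := by
    have := (show U KZ.{u} (fun _ _ (p : ZFSet.{u}) => gr p (fun x => psnd x)) by
        apply_rules (transparency := .reducible) (maxDepth := 400) using is_poly).closed hW
      (a := p) (by simp [hpW])
    simpa using this
  have hIW : img p psnd ∈ W := by
    have := (show U KZ.{u} (fun _ _ (p : ZFSet.{u}) => Helper66.SC.img p (fun x => psnd x)) by
        apply_rules (transparency := .reducible) (maxDepth := 400) using is_poly).closed hW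
      (a := p) (by simp [hpW])
    simpa using this
  have hpc' : CardLe W p (oz Ordinal.omega0) := by rw [hoz]; exact hpc
  have hDc : CardLe W (dom p) ZFSet.omega := by
    rw [omega_eq]
    refine st_K2 W ∅ hW p hpW (dom p) hDW (gr p pfst) hgW _ hω hpc' ?_ ?_
    · intro x y z h1 h2
      rw [(pair_mem_gr.1 h1).2, (pair_mem_gr.1 h2).2]
    · intro y hy
      obtain ⟨s, hs⟩ := mem_dom.1 hy
      exact ⟨pair y s, hs, pair_mem_gr.2 ⟨hs, by simp⟩⟩
  have hIc : CardLe W (img p psnd) ZFSet.omega := by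
    rw [omega_eq]
    refine st_K2 W ∅ hW p hpW (img p psnd) hIW (gr p psnd) hg2W _ hω hpc' ?_ ?_
    · intro x y z h1 h2
      rw [(pair_mem_gr.1 h1).2, (pair_mem_gr.1 h2).2]
    · intro y hy
      obtain ⟨t, ht, rfl⟩ := mem_img.1 hy
      exact ⟨t, ht, pair_mem_gr.2 ⟨ht, rfl⟩⟩
  have hCPW : CP p ∈ W := hW.sUnion _ hIW
  have hCPc : CardLe W (CP p) ZFSet.omega := by
    have h1 : CardLe W (CP p) (ZFSet.omega.prod ZFSet.omega) := by
      refine st_K4 W ∅ hW hWO (img p psnd) hIW _ hW.omega _ hW.omega hIc ?_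
      intro s hs
      obtain ⟨t, ht, rfl⟩ := mem_img.1 hs
      obtain ⟨x, s, rfl, -, hsc, -⟩ := hp1 t ht
      rw [psnd_pair]
      exact hsc
    exact cardLe_trans hW hCPW h1 hωω
  have hmemCP : ∀ c, c ∈ CP p ↔ ∃ x s, pair x s ∈ p ∧ c ∈ s := by
    intro c
    unfold CP
    rw [mem_sUnion]
    constructor
    · rintro ⟨s, hs, hc⟩
      obtain ⟨t, ht, rfl⟩ := mem_img.1 hs
      obtain ⟨x, s, rfl, -⟩ := hp1 t ht
      rw [psnd_pair] at hc
      exact ⟨x, s, ht, hc⟩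
    · rintro ⟨x, s, ht, hc⟩
      exact ⟨s, mem_img.2 ⟨pair x s, ht, by simp⟩, hc⟩
  have hxD : ∀ x ∈ dom p, FF x := by
    intro x hx
    obtain ⟨s, hs⟩ := mem_dom.1 hx
    obtain ⟨x', s', he, hx', -⟩ := hp1 _ hs
    obtain ⟨rfl, rfl⟩ := pair_inj.1 he
    exact hx'
  have hcC : ∀ c ∈ CP p, FF c := by
    intro c hc
    obtain ⟨x, s, hs, hcs⟩ := (hmemCP c).1 hc
    obtain ⟨x', s', he, -, -, h⟩ := hp1 _ hs
    obtain ⟨rfl, rfl⟩ := pair_inj.1 he
    exact (h c hcs).1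
  obtain ⟨R0, hR0, hR0V, hR0s⟩ := exists_code hVO hW hDW hDc (fun x hx => ff_ne (hxD x hx))
    (fun x hx => hFV x (hxD x hx))
  obtain ⟨R1, hR1, hR1V, hR1s⟩ := exists_code hVO hW hCPW hCPc (fun x hx => ff_ne (hcC x hx))
    (fun x hx => hFV x (hcC x hx))
  have h0V : (∅ : ZFSet.{u}) ∈ VO := hωVO ZFSet.omega_zero
  have h1V : ({∅} : ZFSet.{u}) ∈ VO := by
    have := hωVO (ZFSet.omega_succ (ZFSet.omega_zero.{u}))
    simpa using this
  let c : ZFSet.{u} := ({∅} : ZFSet.{u}).prod R0 ∪ ({{∅}} : ZFSet.{u}).prod R1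
  have hcW : c ∈ W := by
    have := (show U KZ.{u} (fun _ _ (p : ZFSet.{u} × ZFSet.{u}) =>
      ({∅} : ZFSet.{u}).prod p.1 ∪ ({{∅}} : ZFSet.{u}).prod p.2) by
        apply_rules (transparency := .reducible) (maxDepth := 400) using is_poly).closed hW
      (a := (R0, R1)) (by simp [hR0, hR1])
    simpa using this
  have hne : (∅ : ZFSet.{u}) ≠ {∅} := by
    intro h
    have h1 : (∅ : ZFSet.{u}) ∈ ({∅} : ZFSet.{u}) := mem_singleton.2 rfl
    rw [← h] at h1
    exact notMem_empty _ h1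
  have hs0 : sx c ∅ = R0 := by
    ext s
    rw [mem_sx]
    rw [mem_union, pair_mem_prod, pair_mem_prod, mem_singleton, mem_singleton]
    constructor
    · rintro (⟨-, h⟩ | ⟨h, -⟩)
      · exact h
      · exact absurd h hne
    · intro h
      exact Or.inl ⟨rfl, h⟩
  have hs1 : sx c {∅} = R1 := by
    ext s
    rw [mem_sx]
    rw [mem_union, pair_mem_prod, pair_mem_prod, mem_singleton, mem_singleton]
    constructor
    · rintro (⟨h, -⟩ | ⟨-, h⟩)
      · exact absurd h.symm hne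
      · exact h
    · intro h
      exact Or.inr ⟨rfl, h⟩
  refine ⟨c, mem_Pow.2 ⟨hcW, ?_⟩, ?_⟩
  · intro z hz
    rcases mem_union.1 hz with h | h
    · obtain ⟨a, ha, b, hb, rfl⟩ := mem_prod.1 h
      rw [mem_singleton.1 ha]
      exact hVOp _ _ h0V (hR0V hb)
    · obtain ⟨a, ha, b, hb, rfl⟩ := mem_prod.1 h
      rw [mem_singleton.1 ha]
      exact hVOp _ _ h1V (hR1V hb)
  · unfold dec
    rw [hs0, hs1, hR0s, hR1s]
    have key : ∀ x s, pair x s ∈ p → (CP p).sep (fun c => LeF c x) = s := by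
      intro x s hs
      ext c
      rw [mem_sep, hmemCP]
      constructor
      · rintro ⟨⟨x', s', h', hc'⟩, hle⟩
        exact hp2 x' s' x s c h' hs hc' hle
      · intro hc
        obtain ⟨x', s', he, -, -, h⟩ := hp1 _ hs
        obtain ⟨rfl, rfl⟩ := pair_inj.1 he
        exact ⟨⟨x, s, hs, hc⟩, (h c hc).2⟩
    ext t
    rw [mem_img]
    constructor
    · rintro ⟨x, hx, rfl⟩
      obtain ⟨s, hs⟩ := mem_dom.1 hx
      rw [key x s hs]
      exact hs
    · intro ht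
      obtain ⟨x, s, rfl, -⟩ := hp1 t ht
      exact ⟨x, mem_dom.2 ⟨s, ht⟩, by rw [key x s ht]⟩

/-- CD, corrected form (for models of the axiom of choice). -/
theorem st_CD2 (hVO : ST_VO.{u}) : ∃ d : ZFSet.{u} → ZFSet.{u}, U KZ.{u} (fun _ _ x => d x) ∧
    ∀ (W : Set ZFSet.{u}), IsZF W ∅ → WO W → ∀ p, IsP W p → ∃ c ∈ Rl W, d c = p :=
  ⟨dec, u_dec, fun _ hW hWO _ hp => cd_aux hVO hW hWO hp⟩

end Pool.Agent.Helper50.GP
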