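import Pool.Agent.Helper50.GP.CD

/-!
# FA : countable choice for reals
-/

universe u

namespace Pool.Agent.Helper50.GP

open ZFSet Pool.Agent.Helper66.SC Pool.Agent.Helper22.SC Pool.Agent.Helper66.GP

theorem st_FA (hVO : ST_VO.{u}) : ST_FA.{u} := by
  intro M N hM hWO hN hNM hR s hs huniq hne
  have hsM : s ∈ M := hNM hs
  have hVOM : VO ∈ M := (hVO.2.2.2.2.2.2.2.1 M ∅ hM).1
  have hωVO : ZFSet.omega.{u} ⊆ VO := hVO.2.2.2.2.2.1
  have hVOp : ∀ x y : ZFSet.{u}, x ∈ VO → y ∈ VO → pair x y ∈ VO := hVO.2.2.1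
  have hD : (ZFSet.sUnion (ran s)) ∈ M := by
    have := (show U KZ.{u} (fun _ _ (p : ZFSet.{u}) => ZFSet.sUnion (ran p)) by
        apply_rules (transparency := .reducible) (maxDepth := 400) using is_poly).closed hM
      (a := s) (by simp [hsM])
    simpa using this
  obtain ⟨E, hE, hch⟩ := exists_chooses hM hWO hD
  let R : ZFSet.{u} := ZFSet.sep (fun z => psnd z ∈ argmin E (app s (pfst z)))
    (ZFSet.omega.prod ZFSet.omega)
  have hRM : R ∈ M := by
    have := (show U KZ.{u} (fun _ _ (p : ZFSet.{u} × ZFSet.{u}) =>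
      ZFSet.sep (fun z => psnd z ∈ argmin p.1 (app p.2 (pfst z)))
        (ZFSet.omega.prod ZFSet.omega)) by
        apply_rules (transparency := .reducible) (maxDepth := 400) using is_poly).closed hM
      (a := (E, s)) (by simp [hE, hsM])
    simpa using this
  have hRV : R ⊆ VO := by
    intro z hz
    obtain ⟨n, hn, m, hm, rfl⟩ := mem_prod.1 (mem_sep.1 hz).1
    exact hVOp _ _ (hωVO hn) (hωVO hm)
  have hRN : R ∈ N := hR R (mem_Pow.2 ⟨hRM, hRV⟩)
  have hf : gr ZFSet.omega (fun n => sx R n) ∈ N := by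
    have h0 : U KZ.{u} (fun _ _ (p : ZFSet.{u}) => gr ZFSet.omega (fun n => sx p n)) :=
      U.gr (g := fun _ _ p n => sx p n) U.omega (u_sx.comp (U.prodMk U.id.fst U.id.snd))
    have := h0.closed hN (a := R) (by simp [hRN])
    simpa using this
  refine ⟨_, hf, fun n => ?_⟩
  obtain ⟨S, hS, hS2⟩ := huniq n
  obtain ⟨hSne, hSω⟩ := hne n S hS
  have hn : nz' n ∈ ZFSet.omega := mem_omega_iff'.2 ⟨n, rfl⟩
  have happ : app s (nz' n) = S := app_eq hS (fun z hz => hS2 z hz)
  have hy : argmin E S ∈ S := by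
    refine hch S ?_ hSne
    intro y hy
    exact mem_sUnion.2 ⟨S, mem_ran.2 ⟨_, hS⟩, hy⟩
  have hsx : sx R (nz' n) = argmin E S := by
    ext k
    rw [mem_sx]
    constructor
    · intro h
      have := (mem_sep.1 h).2
      rwa [psnd_pair, pfst_pair, happ] at this
    · intro h
      refine mem_sep.2 ⟨pair_mem_prod.2 ⟨hn, hSω _ hy h⟩, ?_⟩
      rwa [psnd_pair, pfst_pair, happ]
  refine ⟨S, hS, argmin E S, hy, fun w => ?_⟩
  rw [pair_mem_gr]
  constructor
  · rintro ⟨-, rfl⟩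
    exact hsx
  · rintro rfl
    exact ⟨hn, hsx.symm⟩

end Pool.Agent.Helper50.GP
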