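import Pool.Agent.Helper66.GP.Kit

/-!
# TW : mutually generic witnesses
-/

universe u

namespace Pool.Agent.Helper50.GP

open ZFSet Pool.Agent.Helper66.SC Pool.Agent.Helper22.SC Pool.Agent.Helper66.GP

/-- genericity over a larger model implies genericity over the smaller one -/
theorem generic_mono {M N : Set ZFSet.{u}} {P G : ZFSet.{u}} (h : ∀ x ∈ M, x ∈ N)
    (hG : IsGeneric N P G) : IsGeneric M P G where
  sub := hG.sub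
  top := hG.top
  up := hG.up
  dir := hG.dir
  meets := fun D hD h1 h2 => hG.meets D (h D hD) h1 h2

/-- the formula `∃ e ⊆ x₀, φ(e, x₁, …)` -/
theorem exists_fml {k : ℕ} (φ : Fml (k + 1)) : ∃ ψ : Fml (k + 1), ∀ N : Set ZFSet.{u}, IsZF N ∅ →
    ∀ w : Fin (k + 1) → ZFSet.{u}, (∀ i, w i ∈ N) →
      (Sat N ∅ ψ w ↔ ∃ e ∈ N, e ⊆ w 0 ∧ Sat N ∅ φ (Fin.cons e (Fin.tail w))) := by
  have h0 : URel KZ.{u} (fun N A (v : Fin (k + 1) → ZFSet.{u}) => Sat N A φ v) :=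
    ⟨φ, fun N A _ a _ => Iff.rfl⟩
  have h1 : URel KZ.{u} (fun N A (p : (Fin (k + 1) → ZFSet.{u}) × ZFSet.{u}) =>
      p.2 ⊆ p.1 0 ∧ Sat N A φ (Fin.cons p.2 (Fin.tail p.1))) :=
    (URel.subset U.id.snd (U.id.fst.eval 0)).and
      (h0.comp (U.finCons U.id.snd (U.finTail U.id.fst)))
  have h2 : URel KZ.{u} (fun N A (w : Fin (k + 1) → ZFSet.{u}) => ∃ e ∈ N, e ⊆ w 0 ∧
      Sat N A φ (Fin.cons e (Fin.tail w))) :=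
    URel.ex (R := fun N A (w : Fin (k + 1) → ZFSet.{u}) e => e ⊆ w 0 ∧
      Sat N A φ (Fin.cons e (Fin.tail w))) h1
  obtain ⟨ψ, hψ⟩ := h2
  exact ⟨ψ, fun N hN w hw => (hψ N ∅ hN w hw).symm⟩

theorem st_TW (hPL : ST_PL.{u}) (hPP : ST_PP.{u}) (hCOL : ST_COL.{u}) (hB1 : ST_B1.{u})
    (hB3 : ST_B3.{u}) (hB4 : ST_B4.{u}) (hL2 : ST_L2.{u}) (hL4 : ST_L4.{u}) (hIP : ST_IP.{u})
    (hVO : ST_VO.{u}) : ST_TW.{u} := by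
  intro k φ M W κ hM hκ hLev v hv e₀ he₀ hsat z hz
  obtain ⟨l, G, hl, hG, rfl⟩ := hLev
  obtain ⟨hB1a, hB1b, hB1c, hB1d, hB1e, hB1f, hB1g, hB1h, hB1i⟩ := hB1 M κ hM.zf hM.wo hκ
  have hVOM : VO ∈ M := (hVO.2.2.2.2.2.2.2.1 M ∅ hM.zf).1
  have hVOs : Small M κ VO := by
    refine ⟨hVOM, Ordinal.omega0, hκ.gt, ?_⟩
    have := (hVO.2.2.2.2.2.2.2.2 M ∅ hM.zf hM.wo).1
    rw [omega_eq] at this
    exact this
  have hz' := mem_Pow.1 hz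
  obtain ⟨m, hlm, hmκ, hm⟩ := hB4 M κ l G hM hκ hl hG VO hVOs z hz'.1 hz'.2
  have hzM1 := hm m le_rfl hmκ
  -- the splitting at `m`
  have hS := (hCOL.2 M ∅ l m κ hM.zf hκ.mem hlm hmκ.le).1
  obtain ⟨hF, hK, hE⟩ := (hPL M _ _ _ hM hS).1 G hG
  set P₁ := Col l m with hP₁
  set P₂ := Col m κ with hP₂
  set F := G ∩ P₁ with hFdef
  set K := G ∩ P₂ with hKdef
  obtain ⟨hK0, hF2, hE2, -⟩ := hPP M P₁ P₂ F K hM hS.hQ hS.hR hF hK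
  -- `M'' = Ext M K` is a Levy extension of `M`
  have hCM1 : Ctm (Ext M F) := st_KE M P₁ F hM hS.hQ hF
  have hCM2' : Ctm (Ext M K) := st_KE M P₂ K hM hS.hR hK0
  have hLevK : Lev M κ (Ext M K) := ⟨m, K, hmκ, hK0, rfl⟩
  -- the witness in `Ext M K`
  obtain ⟨φ₁, hφ₁⟩ := exists_fml φ
  have hCW : Ctm (Ext M G) := st_KE M _ G hM hS.hP hG
  have hw : ∀ i, (Fin.cons VO v : Fin (k + 1) → ZFSet.{u}) i ∈ M := by
    intro i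
    refine Fin.cases ?_ (fun i => ?_) i
    · exact hVOM
    · exact hv i
  obtain ⟨ψ₁, hψ₁⟩ := hL2 (k + 1) φ₁
  have hsub : ∀ x ∈ M, x ∈ Ext M G := fun x hx => sub_ext hM hS.hP hG hx
  have hsubK : ∀ x ∈ M, x ∈ Ext M K := fun x hx => sub_ext hM hS.hR hK0 hx
  have hsatW : Sat (Ext M G) ∅ φ₁ (Fin.cons VO v) := by
    rw [hφ₁ (Ext M G) hCW.zf _ (fun i => hsub _ (hw i))]
    refine ⟨e₀, (mem_Pow.1 he₀).1, ?_, ?_⟩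
    · simpa using (mem_Pow.1 he₀).2
    · simpa using hsat
  have hsatK : Sat (Ext M K) ∅ φ₁ (Fin.cons VO v) := by
    rw [hψ₁ M (Ext M K) κ hM hκ hLevK _ hw, ← hψ₁ M (Ext M G) κ hM hκ ⟨l, G, hl, hG, rfl⟩ _ hw]
    exact hsatW
  rw [hφ₁ (Ext M K) hCM2'.zf _ (fun i => hsubK _ (hw i))] at hsatK
  obtain ⟨e, heK, heV, hsate⟩ := hsatK
  simp only [Fin.cons_zero, Fin.tail_cons] at heV hsate
  -- the model `M₂`
  obtain ⟨m', hmm', hm'κ, hm'⟩ := hB4 M κ m K hM hκ hmκ hK0 VO hVOs e heK heV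
  have heM2 := hm' m' le_rfl hm'κ
  have hS2 := (hCOL.2 M ∅ m m' κ hM.zf hκ.mem hmm' hm'κ.le).1
  obtain ⟨hK1, hK2, hE3⟩ := (hPL M _ _ _ hM hS2).1 K hK0
  set P₃ := Col m m' with hP₃
  set P₄ := Col m' κ with hP₄
  set K₁ := K ∩ P₃ with hK₁
  set K₂ := K ∩ P₄ with hK₂
  have hCM2 : Ctm (Ext M K₁) := st_KE M P₃ K₁ hM hS2.hQ hK1
  have hsm : Small M κ P₃ := hB1h m m' hm'κ
  obtain ⟨hIn2, hSm2⟩ := hB3 M κ P₃ K₁ hM hκ hsm hK1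
  have hsub2 : ∀ x ∈ M, x ∈ Ext M K₁ := fun x hx => sub_ext hM hS2.hQ hK1 hx
  have hLev2 : Lev (Ext M K₁) κ (Ext M K) := ⟨m', K₂, hm'κ, hK2, hE3.symm⟩
  -- `W` is a Levy extension of `M₂`
  have hF3 : IsGeneric (Ext (Ext M K₁) K₂) P₁ F := by rw [hE3]; exact hF2
  have hP4M : P₄ ∈ Ext M K₁ := hsub2 _ hS2.hR
  have hP1M : P₁ ∈ Ext M K₁ := hsub2 _ hS.hQ
  obtain ⟨hF4, hK4, hE4, -⟩ := hPP (Ext M K₁) P₄ P₁ K₂ F hCM2 hP4M hP1M hK2 hF3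
  have hLev3 : Lev (Ext (Ext M K₁) F) κ (Ext M G) := by
    refine ⟨m', K₂, hm'κ, hK4, ?_⟩
    rw [← hE4, hE3, ← hE2, hE]
  have hLev4 : Lev (Ext M K₁) κ (Ext M G) :=
    hL4 (Ext M K₁) (Ext M G) κ P₁ F hCM2 hIn2 (hSm2 _ (hB1h l m hmκ)) hF4 hLev3
  -- transfer
  have hev : ∀ i, (Fin.cons e v : Fin (k + 1) → ZFSet.{u}) i ∈ Ext M K₁ := by
    intro i
    refine Fin.cases ?_ (fun i => ?_) i
    · exact heM2
    · exact hsub2 _ (hv i)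
  obtain ⟨ψ, hψ⟩ := hL2 (k + 1) φ
  have hsatWe : Sat (Ext M G) ∅ φ (Fin.cons e v) := by
    rw [hψ (Ext M K₁) (Ext M G) κ hCM2 hIn2 hLev4 _ hev,
      ← hψ (Ext M K₁) (Ext M K) κ hCM2 hIn2 hLev2 _ hev]
    exact hsate
  have hM1W : ∀ x ∈ Ext M F, x ∈ Ext M G := by
    intro x hx
    rw [← hE]
    exact sub_ext hCM1 (sub_ext hM hS.hQ hF hS.hR) hK hx
  have hKW : ∀ x ∈ Ext M K, x ∈ Ext M G := by
    intro x hx
    rw [← hE, hE2]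
    exact sub_ext hCM2' (hsubK _ hS.hQ) hF2 hx
  have hM2K : ∀ x ∈ Ext M K₁, x ∈ Ext M K := by
    intro x hx
    rw [← hE3]
    exact sub_ext hCM2 hP4M hK2 hx
  -- mutual genericity
  have hS3 := (hCOL.2 (Ext M F) ∅ m m' κ hCM1.zf (sub_ext hM hS.hQ hF hκ.mem) hmm' hm'κ.le).1
  have hK5 : IsGeneric (Ext M F) P₃ K₁ := ((hPL (Ext M F) _ _ _ hCM1 hS3).1 K hK).1
  have hip := hIP M P₁ P₃ F K₁ hM hS.hQ hS2.hQ hF hK5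
  refine ⟨Ext M F, Ext M K₁, e, hCM1, hCM2, hM1W, fun x hx => hKW x (hM2K x hx), hzM1, heM2,
    ?_, hsatWe, ?_⟩
  · exact mem_Pow.2 ⟨hKW e heK, heV⟩
  · intro x hx y hy hfx hfy
    exact ⟨fun h => hip.1 x hx y hy hfx hfy h, fun h => hip.2 x hx y hy hfx hfy h⟩

end Pool.Agent.Helper50.GP
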